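import Pool.Agent.Lib_helper35.FGRF.Interface

/-!
P. Hall's maximal condition for modules over finitely generated nilpotent groups.
-/

set_option autoImplicit false
set_option linter.unusedSectionVars false
set_option linter.unusedVariables false

namespace Pool.Agent.LibH11.PHall

open Pool.Agent.FGRF

universe u v w

section basics

variable {J : Type v} [CommRing J] {G : Type u} [Group G] {M : Type w} [AddCommGroup M]
  [Module J M] [DistribMulAction G M] [SMulCommClass G J M]

/-- invariance of a submodule under a subgroup -/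
def Inv (H : Subgroup G) (N : Submodule J M) : Prop := ∀ h ∈ H, ∀ x ∈ N, h • x ∈ N

/-- the translation `x ↦ g • x` as a linear map -/
def act (J : Type v) [CommRing J] {G : Type u} [Group G] {M : Type w} [AddCommGroup M]
    [Module J M] [DistribMulAction G M] [SMulCommClass G J M] (g : G) : M →ₗ[J] M :=
  DistribSMul.toLinearMap J M g

@[simp] lemma act_apply (g : G) (x : M) : act J g x = g • x := rfl

lemma Inv.mono {H H' : Subgroup G} (h : H ≤ H') {N : Submodule J M} (hN : Inv H' N) : Inv H N :=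
  fun g hg x hx => hN g (h hg) x hx

lemma subset_hspan (H : Subgroup G) (S : Set M) : S ⊆ (hspan J H S : Set M) := fun s hs =>
  Submodule.subset_span ⟨1, H.one_mem, s, hs, (one_smul _ _).symm⟩

lemma inv_hspan (H : Subgroup G) (S : Set M) : Inv H (hspan J H S) := by
  intro h hh x hx
  have : hspan J H S ≤ (hspan J H S).comap (act J h) := by
    unfold hspan
    rw [Submodule.span_le]
    rintro _ ⟨g, hg, s, hs, rfl⟩
    apply Submodule.subset_span
    exact ⟨h * g, H.mul_mem hh hg, s, hs, by simp [mul_smul]⟩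
  exact this hx

lemma hspan_le {H : Subgroup G} {S : Set M} {N : Submodule J M} (hS : S ⊆ N) (hN : Inv H N) :
    hspan J H S ≤ N := by
  unfold hspan
  rw [Submodule.span_le]
  rintro _ ⟨g, hg, s, hs, rfl⟩
  exact hN g hg s (hS hs)

lemma hspan_mono {H : Subgroup G} {S T : Set M} (h : S ⊆ T) : hspan J H S ≤ hspan J H T :=
  hspan_le (h.trans (subset_hspan H T)) (inv_hspan H T)

lemma inv_sup {H : Subgroup G} {N N' : Submodule J M} (h : Inv H N) (h' : Inv H N') :
    Inv H (N ⊔ N') := by
  intro g hg x hx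
  obtain ⟨y, hy, z, hz, rfl⟩ := Submodule.mem_sup.1 hx
  rw [smul_add]
  exact Submodule.add_mem_sup (h g hg y hy) (h' g hg z hz)

/-- translate of a submodule -/
lemma mem_map_act {g : G} {N : Submodule J M} {x : M} :
    x ∈ N.map (act J g) ↔ g⁻¹ • x ∈ N := by
  constructor
  · rintro ⟨y, hy, rfl⟩
    simpa using hy
  · intro h
    exact ⟨g⁻¹ • x, h, by simp⟩

lemma inv_map_act {H : Subgroup G} (hH : H.Normal) (g : G) {N : Submodule J M} (h : Inv H N) :
    Inv H (N.map (act J g)) := by
  intro k hk x hx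
  rw [mem_map_act] at hx ⊢
  have : g⁻¹ • k • x = (g⁻¹ * k * g) • g⁻¹ • x := by
    simp [mul_smul]
  rw [this]
  refine h _ ?_ _ hx
  have := hH.conj_mem k hk g⁻¹
  simpa using this

end basics

section layers

variable {J : Type v} [CommRing J] {G : Type u} [Group G] {M : Type w} [AddCommGroup M]
  [Module J M] [DistribMulAction G M] [SMulCommClass G J M]

/-- `K + Σ_{0 ≤ j < n} t^j M₀` -/
def lay (K M0 : Submodule J M) (t : G) : ℕ → Submodule J M
  | 0 => K
  | n + 1 => lay K M0 t n ⊔ M0.map (act J (t ^ n))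

lemma lay_le_succ (K M0 : Submodule J M) (t : G) (n : ℕ) : lay K M0 t n ≤ lay K M0 t (n + 1) :=
  le_sup_left

lemma lay_mono (K M0 : Submodule J M) (t : G) : Monotone (lay K M0 t) :=
  monotone_nat_of_le_succ (lay_le_succ K M0 t)

lemma inv_lay {H : Subgroup G} (hH : H.Normal) {K M0 : Submodule J M} (hK : Inv H K)
    (hM0 : Inv H M0) (t : G) (n : ℕ) : Inv H (lay K M0 t n) := by
  induction n with
  | zero => exact hK
  | succ n ih => exact inv_sup ih (inv_map_act hH _ hM0)

lemma smul_lay {K M0 : Submodule J M} {t : G} (hK : ∀ x ∈ K, t • x ∈ K) (n : ℕ) :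
    ∀ x ∈ lay K M0 t n, t • x ∈ lay K M0 t (n + 1) := by
  induction n with
  | zero => exact fun x hx => lay_le_succ K M0 t 0 (hK x hx)
  | succ n ih =>
    intro x hx
    obtain ⟨y, hy, z, hz, rfl⟩ := Submodule.mem_sup.1 hx
    rw [smul_add]
    refine add_mem (lay_le_succ K M0 t (n + 1) (ih y hy)) ?_
    refine (le_sup_right : M0.map (act J (t ^ (n + 1))) ≤ _) ?_
    rw [mem_map_act] at hz ⊢
    have : (t ^ (n + 1))⁻¹ • t • z = (t ^ n)⁻¹ • z := by
      rw [← mul_smul]; congr 1; group
    rw [this]; exact hz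

lemma pow_smul_lay {K M0 : Submodule J M} {t : G} (hK : ∀ x ∈ K, t • x ∈ K) (n e : ℕ) :
    ∀ x ∈ lay K M0 t n, t ^ e • x ∈ lay K M0 t (n + e) := by
  induction e with
  | zero => intro x hx; simpa using hx
  | succ e ih =>
    intro x hx
    have : t ^ (e + 1) • x = t • t ^ e • x := by rw [← mul_smul, pow_succ']
    rw [this]
    exact smul_lay hK _ _ (ih x hx)

lemma map_pow_le_lay (K M0 : Submodule J M) (t : G) (n : ℕ) :
    M0.map (act J (t ^ n)) ≤ lay K M0 t (n + 1) := le_sup_right

/-- every element of `K + hspan H' S` is moved into some layer by a power of `t` -/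
lemma exists_mem_lay {H : Subgroup G} (hH : H.Normal) {t : G} {K : Submodule J M}
    (hK : ∀ x ∈ K, t • x ∈ K) (S : Set M) :
    ∀ y ∈ K ⊔ hspan J (H ⊔ Subgroup.zpowers t) S,
      ∃ e m : ℕ, t ^ e • y ∈ lay K (hspan J H S) t m := by
  have key : ∀ (y : M) (e m e' : ℕ), t ^ e • y ∈ lay K (hspan J H S) t m →
      t ^ (e + e') • y ∈ lay K (hspan J H S) t (m + e') := by
    intro y e m e' h
    have : t ^ (e + e') • y = t ^ e' • t ^ e • y := by
      rw [← mul_smul, ← pow_add, add_comm]
    rw [this]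
    exact pow_smul_lay hK _ _ _ h
  -- the set of such elements is a submodule
  let T : Submodule J M :=
    { carrier := {y | ∃ e m : ℕ, t ^ e • y ∈ lay K (hspan J H S) t m}
      add_mem' := by
        rintro y z ⟨e, m, h⟩ ⟨e', m', h'⟩
        refine ⟨e + e', (m + e') + (m' + e), ?_⟩
        rw [smul_add]
        refine add_mem (lay_mono _ _ _ (Nat.le_add_right _ _) (key y e m e' h)) ?_
        have := key z e' m' e h'
        rw [add_comm e' e] at this
        exact lay_mono _ _ _ (Nat.le_add_left _ _) this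
      zero_mem' := ⟨0, 0, by simp⟩
      smul_mem' := by
        rintro c y ⟨e, m, h⟩
        refine ⟨e, m, ?_⟩
        rw [smul_comm]
        exact Submodule.smul_mem _ _ h }
  have hKT : K ≤ T := fun y hy => ⟨0, 0, by simpa [lay] using hy⟩
  have hST : hspan J (H ⊔ Subgroup.zpowers t) S ≤ T := by
    unfold hspan
    rw [Submodule.span_le]
    rintro _ ⟨g, hg, s, hs, rfl⟩
    obtain ⟨h, hh, z, hz, rfl⟩ := Subgroup.mem_sup_of_normal_left.1 hg
    obtain ⟨k, rfl⟩ := Subgroup.mem_zpowers_iff.1 hz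
    obtain ⟨e, he⟩ : ∃ e : ℕ, 0 ≤ (e : ℤ) + k := ⟨k.natAbs, by omega⟩
    obtain ⟨n, hn⟩ := Int.eq_ofNat_of_zero_le he
    refine ⟨e, n + 1, map_pow_le_lay _ _ _ _ ?_⟩
    rw [mem_map_act]
    have e1 : (t ^ n)⁻¹ • t ^ e • (h * t ^ k) • s = ((t ^ k)⁻¹ * h * t ^ k) • s := by
      rw [← mul_smul, ← mul_smul]
      congr 1
      have : (t ^ n : G) = t ^ (e : ℤ) * t ^ k := by
        rw [← zpow_add, hn, zpow_natCast]
      rw [this, ← zpow_natCast t e]
      group
    rw [e1]
    refine inv_hspan H S _ ?_ _ (subset_hspan H S hs)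
    have := hH.conj_mem h hh (t ^ k)⁻¹
    simpa using this
  exact fun y hy => (sup_le hKT hST) hy

end layers

section acc

variable {J : Type v} [CommRing J] {G : Type u} [Group G] {M : Type w} [AddCommGroup M]
  [Module J M] [DistribMulAction G M] [SMulCommClass G J M]

/-- ascending chain condition for `H`-invariant submodules of `M0` -/
def ACC (H : Subgroup G) (M0 : Submodule J M) : Prop :=
  ∀ f : ℕ → Submodule J M, Monotone f → (∀ n, f n ≤ M0) → (∀ n, Inv H (f n)) →
    ∃ n, ∀ m, n ≤ m → f m = f n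

lemma acc_base [IsNoetherianRing J] (P : Subgroup G) (hP : ∀ g ∈ P, ∀ x : M, g • x = x) (S : Set M)
    (hS : S.Finite) : ACC P (hspan J P S) := by
  intro f hf hle _
  have e : hspan J P S = Submodule.span J S := by
    unfold hspan
    congr 1
    ext x
    constructor
    · rintro ⟨h, hh, s, hs, rfl⟩
      rwa [hP h hh s]
    · intro hx
      exact ⟨1, P.one_mem, x, hx, (one_smul _ _).symm⟩
  rw [e] at hle
  have : Module.Finite J (Submodule.span J S) := Module.Finite.span_of_finite J hS
  have hN : IsNoetherian J (Submodule.span J S) := inferInstance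
  set A := Submodule.span J S
  obtain ⟨n, hn⟩ := monotone_stabilizes_iff_noetherian.2 hN
    ⟨fun n => (f n).comap A.subtype, fun a b hab => Submodule.comap_mono (hf hab)⟩
  refine ⟨n, fun m hm => ?_⟩
  have h1 := hn m hm
  simp only [OrderHom.coe_mk] at h1
  have h2 : ∀ k, f k = ((f k).comap A.subtype).map A.subtype := by
    intro k
    rw [Submodule.map_comap_subtype]
    exact (inf_eq_right.2 (hle k)).symm
  rw [h2 m, h2 n, h1]

lemma acc_step {H : Subgroup G} (hH : H.Normal) (t : G) (ht : ∀ g : G, g * t * g⁻¹ * t⁻¹ ∈ H)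
    (S : Set M) (hacc : ACC (J := J) H (hspan J H S)) :
    ACC (J := J) (H ⊔ Subgroup.zpowers t) (hspan J (H ⊔ Subgroup.zpowers t) S) := by
  intro f hf hle hinv
  set M0 := hspan J H S with hM0
  have htm : t ∈ H ⊔ Subgroup.zpowers t := Subgroup.mem_sup_right (Subgroup.mem_zpowers t)
  have htn : ∀ n : ℕ, t ^ n ∈ H ⊔ Subgroup.zpowers t := fun n => Subgroup.pow_mem _ htm n
  have hHH : H ≤ H ⊔ Subgroup.zpowers t := le_sup_left
  have hbot : Inv H (⊥ : Submodule J M) := by
    intro g _ x hx
    rw [Submodule.mem_bot] at hx ⊢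
    rw [hx, smul_zero]
  have hlay : ∀ n, Inv H (lay ⊥ M0 t n) := inv_lay hH hbot (inv_hspan H S) t
  let L : ℕ → ℕ → Submodule J M := fun i n =>
    M0 ⊓ (f n ⊔ lay ⊥ M0 t i).comap (act J (t ^ i))
  have hLle : ∀ i n, L i n ≤ M0 := fun i n => inf_le_left
  have hLinv : ∀ i n, Inv H (L i n) := by
    intro i n h hh x hx
    refine ⟨inv_hspan H S h hh x hx.1, ?_⟩
    have h2 : t ^ i • x ∈ f n ⊔ lay ⊥ M0 t i := hx.2
    change t ^ i • h • x ∈ f n ⊔ lay ⊥ M0 t i
    have e : t ^ i • h • x = (t ^ i * h * (t ^ i)⁻¹) • t ^ i • x := by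
      simp [mul_smul]
    rw [e]
    exact inv_sup ((hinv n).mono hHH) (hlay i) _ (hH.conj_mem h hh _) _ h2
  have hLn : ∀ i n m, n ≤ m → L i n ≤ L i m := by
    intro i n m h
    exact inf_le_inf le_rfl (Submodule.comap_mono (sup_le_sup (hf h) le_rfl))
  have hLi1 : ∀ i n, L i n ≤ L (i + 1) n := by
    intro i n x hx
    refine ⟨hx.1, ?_⟩
    have h2 : t ^ i • x ∈ f n ⊔ lay ⊥ M0 t i := hx.2
    change t ^ (i + 1) • x ∈ f n ⊔ lay ⊥ M0 t (i + 1)
    obtain ⟨y, hy, z, hz, hyz⟩ := Submodule.mem_sup.1 h2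
    have e : t ^ (i + 1) • x = t • y + t • z := by
      rw [pow_succ', mul_smul, ← hyz, smul_add]
    rw [e]
    exact Submodule.add_mem_sup (hinv n t htm y hy)
      (smul_lay (fun x hx => by rw [Submodule.mem_bot] at hx ⊢; rw [hx, smul_zero]) i z hz)
  have hLi : ∀ i j n, i ≤ j → L i n ≤ L j n := by
    intro i j n h
    induction j, h using Nat.le_induction with
    | base => exact le_rfl
    | succ j _ ih => exact ih.trans (hLi1 j n)
  obtain ⟨n0, hn0⟩ := hacc (fun n => L n n)
    (fun a b h => (hLi a b a h).trans (hLn b a b h)) (fun n => hLle n n) (fun n => hLinv n n)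
  have hst : ∀ i, ∃ n, ∀ m, n ≤ m → L i m = L i n := fun i =>
    hacc (fun n => L i n) (fun a b h => hLn i a b h) (fun n => hLle i n) (fun n => hLinv i n)
  choose c hc using hst
  obtain ⟨C, hC⟩ : ∃ C, ∀ i < n0, c i ≤ C :=
    ⟨(Finset.range n0).sup c, fun i hi => Finset.le_sup (Finset.mem_range.2 hi)⟩
  set K0 := max n0 C with hK0
  have hstab : ∀ i k, K0 ≤ k → L i k ≤ L i K0 := by
    intro i k hk
    rcases lt_or_ge i n0 with hi | hi
    · have h1 : c i ≤ K0 := (hC i hi).trans (le_max_right _ _)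
      rw [hc i k (h1.trans hk), hc i K0 h1]
    · have h1 : L i k ≤ L (max i k) (max i k) :=
        (hLi i _ k (le_max_left _ _)).trans (hLn _ _ _ (le_max_right _ _))
      have h2 : L (max i k) (max i k) = L n0 n0 := hn0 _ (hi.trans (le_max_left _ _))
      have h3 : L n0 n0 ≤ L i K0 := (hLi n0 i n0 hi).trans (hLn i _ _ (le_max_left _ _))
      exact h1.trans (h2.le.trans h3)
  refine ⟨K0, fun k hk => le_antisymm ?_ (hf hk)⟩
  have hmain : ∀ m : ℕ, ∀ y ∈ f k, y ∈ lay ⊥ M0 t m → y ∈ f K0 := by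
    intro m
    induction m with
    | zero =>
      intro y _ hy
      have : y = 0 := by simpa [lay] using hy
      rw [this]; exact zero_mem _
    | succ m ih =>
      intro y hyk hy
      obtain ⟨y0, hy0, z, hz, rfl⟩ := Submodule.mem_sup.1 hy
      obtain ⟨a, ha, rfl⟩ := hz
      have haL : a ∈ L m k := by
        refine ⟨ha, ?_⟩
        change t ^ m • a ∈ f k ⊔ lay ⊥ M0 t m
        have : t ^ m • a = (y0 + act J (t ^ m) a) + (-y0) := by simp
        rw [this]
        exact Submodule.add_mem_sup hyk (neg_mem hy0)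
      have haL' := (hstab m k hk haL).2
      change t ^ m • a ∈ f K0 ⊔ lay ⊥ M0 t m at haL'
      obtain ⟨z, hz, y1, hy1, hzy⟩ := Submodule.mem_sup.1 haL'
      have h1 : (y0 + act J (t ^ m) a) - z ∈ f K0 := by
        apply ih
        · exact sub_mem hyk (hf hk hz)
        · have : y0 + act J (t ^ m) a - z = y0 + y1 := by
            rw [act_apply, ← hzy]; abel
          rw [this]
          exact add_mem hy0 hy1
      have := add_mem h1 hz
      simpa using this
  intro y hy
  obtain ⟨e, m, hem⟩ := exists_mem_lay (J := J) (K := ⊥) hH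
    (fun x hx => by rw [Submodule.mem_bot] at hx ⊢; rw [hx, smul_zero]) S y
    ((le_sup_right : _ ≤ (⊥ : Submodule J M) ⊔ _) (hle k hy))
  have h1 := hmain m _ (hinv k _ (htn e) y hy) hem
  have h2 := hinv K0 (t ^ e)⁻¹ (Subgroup.inv_mem _ (htn e)) _ h1
  simpa using h2

/-- P. Hall: ascending chain condition along a central chain -/
theorem acc_of_ccov [IsNoetherianRing J] {P : Subgroup G} (hP : P.Normal)
    (hPt : ∀ g ∈ P, ∀ x : M, g • x = x) {H : Subgroup G} (hc : CCov P H) (S : Set M)
    (hS : S.Finite) : ACC H (hspan J H S) := by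
  induction hc with
  | base => exact acc_base P hPt S hS
  | @step H t hH ht ih => exact acc_step (hH.normal hP) t ht S ih

end acc

theorem noethStatement : Interface.NoethStatement.{u, v, w} := by
  intro J _ _ G _ P hP hc M _ _ _ _ hPt S hS hSt N hN
  have hacc := acc_of_ccov (J := J) hP hPt hc S hS
  rw [hSt] at hacc
  by_contra hcon
  push Not at hcon
  -- build a strictly increasing chain
  have hstep : ∀ T : {T : Set M // T.Finite ∧ T ⊆ N}, ∃ x ∈ N,
      x ∉ hspan J (⊤ : Subgroup G) (T : Set M) := by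
    intro T
    by_contra h
    push Not at h
    exact hcon T T.2.1 (le_antisymm h (hspan_le T.2.2 (fun g _ x hx => hN g x hx)))
  choose x hxN hx using hstep
  let F : ℕ → {T : Set M // T.Finite ∧ T ⊆ N} := fun n =>
    Nat.rec ⟨∅, Set.finite_empty, Set.empty_subset _⟩
      (fun _ T => ⟨insert (x T) (T : Set M), T.2.1.insert _,
        Set.insert_subset (hxN T) T.2.2⟩) n
  have hF : ∀ n, (F (n + 1)).1 = insert (x (F n)) (F n).1 := fun n => rfl
  obtain ⟨n, hn⟩ := hacc (fun n => hspan J (⊤ : Subgroup G) (F n).1)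
    (monotone_nat_of_le_succ fun n => hspan_mono (by rw [hF]; exact Set.subset_insert _ _))
    (fun _ => le_top) (fun n => inv_hspan _ _)
  have h1 := hn (n + 1) (Nat.le_succ n)
  apply hx (F n)
  rw [← h1]
  apply subset_hspan
  rw [hF]
  exact Set.mem_insert _ _

end Pool.Agent.LibH11.PHall
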