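import Pool.Agent.LibH11.PHall.Simple

/-!
Finitely generated monolithic modules over finitely generated nilpotent groups are finite.
-/

set_option autoImplicit false
set_option linter.unusedSectionVars false
set_option linter.unusedVariables false
set_option linter.style.haveILetI false

namespace Pool.Agent.LibH11.PHall

open Pool.Agent.FGRF

universe u v w

section mono

variable {G : Type u} [Group G] {M : Type w} [AddCommGroup M] [DistribMulAction G M]

/-- an endomorphism commuting with `G` and killing the monolith is nilpotent -/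
lemma nilpotent_of_kills (hacc : ACC (J := ℤ) (⊤ : Subgroup G) (⊤ : Submodule ℤ M)) (x0 : M)
    (hx0 : x0 ≠ 0)
    (hmono : ∀ N : AddSubgroup M, (∀ (g : G), ∀ x ∈ N, g • x ∈ N) → N ≠ ⊥ → x0 ∈ N)
    (φ : Module.End ℤ M) (hφ : ∀ (g : G) (x : M), φ (g • x) = g • φ x) (h0 : φ x0 = 0) :
    ∃ k : ℕ, φ ^ k = 0 := by
  have hφk : ∀ (k : ℕ) (g : G) (x : M), (φ ^ k) (g • x) = g • (φ ^ k) x := by
    intro k g
    induction k with
    | zero => intro x; simp
    | succ k ih => intro x; rw [pow_succ, Module.End.mul_apply, Module.End.mul_apply, hφ, ih]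
  obtain ⟨n, hn⟩ := hacc (fun k => LinearMap.ker (φ ^ k))
    (monotone_nat_of_le_succ fun k x hx => by
      rw [LinearMap.mem_ker] at hx ⊢
      rw [pow_succ', Module.End.mul_apply, hx, map_zero])
    (fun _ => le_top)
    (fun k g _ x hx => by
      rw [LinearMap.mem_ker] at hx ⊢
      rw [hφk, hx, smul_zero])
  refine ⟨n, ?_⟩
  by_contra hne
  have h1 := hmono (LinearMap.range (φ ^ n)).toAddSubgroup (by
    rintro g _ ⟨y, rfl⟩
    exact ⟨g • y, hφk n g y⟩) (by
    intro h
    apply hne
    ext y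
    have : (φ ^ n) y ∈ (LinearMap.range (φ ^ n)).toAddSubgroup := ⟨y, rfl⟩
    rw [h] at this
    simpa using this)
  obtain ⟨y, hy⟩ := h1
  have h2 : y ∈ LinearMap.ker (φ ^ (n + 1)) := by
    rw [LinearMap.mem_ker, pow_succ', Module.End.mul_apply, hy, h0]
  rw [hn (n + 1) (Nat.le_succ n), LinearMap.mem_ker, hy] at h2
  exact hx0 h2

/-- unipotent endomorphisms of modules of bounded exponent have finite order -/
lemma unipotent_order (Q : ℕ) (hQ : 1 ≤ Q) (hk : ∀ x : M, Q • x = 0) (φ : Module.End ℤ M) (k : ℕ)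
    (hφ : φ ^ k = 0) : ∃ a b : ℕ, a < b ∧ (1 + φ) ^ a = (1 + φ) ^ b := by
  haveI : NeZero Q := ⟨by omega⟩
  have hE : ∀ a : ℕ, (1 + φ) ^ a = ∑ i ∈ Finset.range k, a.choose i • φ ^ i := by
    intro a
    have h1 : (1 + φ) ^ a = ∑ i ∈ Finset.range (a + 1), a.choose i • φ ^ i := by
      rw [add_comm, (Commute.one_right φ).add_pow]
      refine Finset.sum_congr rfl fun i _ => ?_
      rw [one_pow, mul_one, ← Nat.cast_comm, nsmul_eq_mul]
    rw [h1]
    have h2 : ∑ i ∈ Finset.range (a + 1), a.choose i • φ ^ i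
        = ∑ i ∈ Finset.range (max (a + 1) k), a.choose i • φ ^ i := by
      apply Finset.sum_subset
      · intro i hi
        rw [Finset.mem_range] at hi ⊢
        omega
      · intro i _ hi
        rw [Finset.mem_range] at hi
        rw [Nat.choose_eq_zero_of_lt (by omega), zero_smul]
    have h3 : ∑ i ∈ Finset.range k, a.choose i • φ ^ i
        = ∑ i ∈ Finset.range (max (a + 1) k), a.choose i • φ ^ i := by
      apply Finset.sum_subset
      · intro i hi
        rw [Finset.mem_range] at hi ⊢
        omega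
      · intro i _ hi
        rw [Finset.mem_range] at hi
        have : φ ^ i = 0 := by
          have : i = k + (i - k) := by omega
          rw [this, pow_add, hφ, zero_mul]
        rw [this, smul_zero]
    rw [h2, h3]
  have hQz : ∀ (c : ℕ) (ψ : Module.End ℤ M), c • ψ = (c % Q) • ψ := by
    intro c ψ
    ext x
    rw [LinearMap.smul_apply, LinearMap.smul_apply]
    conv_lhs => rw [← Nat.div_add_mod c Q, add_smul, mul_comm, mul_smul, hk, smul_zero, zero_add]
  obtain ⟨i, j, hij, h⟩ := Finite.exists_ne_map_eq_of_infinite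
    (fun (a : ℕ) (l : Fin k) => ((a.choose l : ℕ) : ZMod Q))
  have key : ∀ a b : ℕ, (∀ l : Fin k, ((a.choose l : ℕ) : ZMod Q) = ((b.choose l : ℕ) : ZMod Q)) →
      (1 + φ) ^ a = (1 + φ) ^ b := by
    intro a b hab
    rw [hE, hE]
    refine Finset.sum_congr rfl fun l hl => ?_
    have h1 := hab ⟨l, Finset.mem_range.1 hl⟩
    rw [ZMod.natCast_eq_natCast_iff'] at h1
    rw [hQz, h1, ← hQz]
  have h' : ∀ l : Fin k, ((i.choose l : ℕ) : ZMod Q) = ((j.choose l : ℕ) : ZMod Q) :=
    fun l => congrFun h l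
  rcases lt_or_gt_of_ne hij with hlt | hgt
  · exact ⟨i, j, hlt, key i j h'⟩
  · exact ⟨j, i, hgt, key j i fun l => (h' l).symm⟩

theorem mono_finite (P : Subgroup G) (hP : P.Normal) (hc : CCov P ⊤)
    (hPt : ∀ g ∈ P, ∀ x : M, g • x = x)
    (hfg : ∃ S : Set M, S.Finite ∧ AddSubgroup.closure {x | ∃ g : G, ∃ s ∈ S, x = g • s} = ⊤)
    (x0 : M) (hx0 : x0 ≠ 0)
    (hmono : ∀ N : AddSubgroup M, (∀ (g : G), ∀ x ∈ N, g • x ∈ N) → N ≠ ⊥ → x0 ∈ N) :
    Finite M := by
  obtain ⟨S, hS, hSt⟩ := hfg
  -- maximal condition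
  have hacc : ACC (J := ℤ) (⊤ : Subgroup G) (⊤ : Submodule ℤ M) := by
    have h1 := acc_of_ccov (J := ℤ) hP hPt hc S hS
    have h2 : hspan ℤ (⊤ : Subgroup G) S = ⊤ := by
      rw [eq_top_iff]
      intro x _
      have h3 : AddSubgroup.closure {x | ∃ g : G, ∃ s ∈ S, x = g • s}
          ≤ (hspan ℤ (⊤ : Subgroup G) S).toAddSubgroup := by
        rw [AddSubgroup.closure_le]
        rintro _ ⟨g, s, hs, rfl⟩
        exact Submodule.subset_span ⟨g, Subgroup.mem_top g, s, hs, rfl⟩
      exact h3 (hSt ▸ AddSubgroup.mem_top x)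
    rwa [h2] at h1
  -- the monolith
  let A : AddSubgroup M := AddSubgroup.closure {x | ∃ g : G, x = g • x0}
  have hAinv : ∀ (g : G), ∀ x ∈ A, g • x ∈ A := by
    intro g x hx
    induction hx using AddSubgroup.closure_induction with
    | mem x hx =>
      obtain ⟨h, rfl⟩ := hx
      exact AddSubgroup.subset_closure ⟨g * h, (mul_smul _ _ _).symm⟩
    | zero => rw [smul_zero]; exact zero_mem _
    | add x y _ _ hx hy => rw [smul_add]; exact add_mem hx hy
    | neg x _ hx => rw [smul_neg]; exact neg_mem hx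
  have hxA : x0 ∈ A := AddSubgroup.subset_closure ⟨1, (one_smul _ _).symm⟩
  letI : DistribMulAction G A :=
    { smul := fun g x => ⟨g • (x : M), hAinv g x x.2⟩
      one_smul := fun x => Subtype.ext (one_smul G (x : M))
      mul_smul := fun g h x => Subtype.ext (mul_smul g h (x : M))
      smul_zero := fun g => Subtype.ext (smul_zero g)
      smul_add := fun g x y => Subtype.ext (smul_add g (x : M) (y : M)) }
  have hsmA : ∀ (g : G) (x : A), ((g • x : A) : M) = g • (x : M) := fun g x => rfl
  have hAfin : Finite A := by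
    refine simple_finite P hP hc (fun g hg x => Subtype.ext (hPt g hg (x : M))) ⟨x0, hxA⟩
      (fun h => hx0 (congrArg Subtype.val h)) ?_
    intro N hN
    by_cases hb : N = ⊥
    · exact Or.inl hb
    · right
      have h1 : x0 ∈ N.map A.subtype := by
        apply hmono
        · rintro g _ ⟨y, hy, rfl⟩
          exact ⟨g • y, hN g y hy, rfl⟩
        · intro h
          apply hb
          rw [eq_bot_iff]
          intro y hy
          have : (y : M) ∈ N.map A.subtype := ⟨y, hy, rfl⟩
          rw [h, AddSubgroup.mem_bot] at this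
          rw [AddSubgroup.mem_bot]
          exact Subtype.ext this
      obtain ⟨y, hy, hy0⟩ := h1
      have h2 : A ≤ N.map A.subtype := by
        apply (AddSubgroup.closure_le _).2
        rintro _ ⟨g, rfl⟩
        refine ⟨g • y, hN g y hy, ?_⟩
        change g • (y : M) = g • x0
        rw [show (y : M) = x0 from hy0]
      rw [eq_top_iff]
      intro z _
      obtain ⟨w, hw, hwz⟩ := h2 z.2
      have : w = z := Subtype.ext hwz
      exact this ▸ hw
  -- bounded exponent
  obtain ⟨Q, hQ1, hQ⟩ : ∃ Q : ℕ, 1 ≤ Q ∧ ∀ x : M, Q • x = 0 := by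
    set m := Nat.card A with hm
    have hm1 : 1 ≤ m := Nat.card_pos
    obtain ⟨k, hk⟩ := nilpotent_of_kills hacc x0 hx0 hmono ((m : ℕ) • (1 : Module.End ℤ M))
      (fun g x => by
        change m • (g • x) = g • (m • x)
        exact smul_comm _ _ _) (by
        have h1 : m • (⟨x0, hxA⟩ : A) = 0 := card_nsmul_eq_zero'
        have := congrArg Subtype.val h1
        simpa using this)
    refine ⟨m ^ k, Nat.one_le_pow _ _ hm1, fun x => ?_⟩
    have h2 : (((m : ℕ) • (1 : Module.End ℤ M)) ^ k) x = m ^ k • x := by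
      clear hk
      induction k with
      | zero => simp
      | succ k ih =>
        rw [pow_succ', Module.End.mul_apply, ih, pow_succ', mul_smul]
        rfl
    rw [← h2, hk]
    rfl
  -- finite image
  have hfin : Finite ((⊤ : Subgroup G).map (MulAction.toPermHom G M)) := by
    refine chain_finite P hP hPt (fun z hz => ?_) hc
    obtain ⟨i, j, hij, h⟩ := Finite.exists_ne_map_eq_of_infinite
      (fun n : ℕ => (⟨z ^ n • x0, hAinv _ _ hxA⟩ : A))
    have hpow : ∀ a b : ℕ, a < b → z ^ a • x0 = z ^ b • x0 → z ^ (b - a) • x0 = x0 := by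
      intro a b hab h
      have h1 : z ^ b = z ^ a * z ^ (b - a) := by rw [← pow_add]; congr 1; omega
      rw [h1, mul_smul] at h
      have := congrArg (fun y => (z ^ a)⁻¹ • y) h
      simpa using this.symm
    obtain ⟨n, hn1, hn⟩ : ∃ n : ℕ, 1 ≤ n ∧ z ^ n • x0 = x0 := by
      have h' : z ^ i • x0 = z ^ j • x0 := congrArg Subtype.val h
      rcases lt_or_gt_of_ne hij with hlt | hgt
      · exact ⟨j - i, by omega, hpow i j hlt h'⟩
      · exact ⟨i - j, by omega, hpow j i hgt h'.symm⟩
    have hzn : ∀ (k : ℕ) (g : G) (x : M), z ^ k • g • x = g • z ^ k • x := by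
      intro k g
      induction k with
      | zero => intro x; simp
      | succ k ih => intro x; rw [pow_succ, mul_smul, mul_smul, hz, ih]
    set ζ : Module.End ℤ M := act ℤ (z ^ n) - 1 with hζ
    have hζa : ∀ x, ζ x = z ^ n • x - x := fun x => rfl
    obtain ⟨k, hk⟩ := nilpotent_of_kills hacc x0 hx0 hmono ζ
      (fun g x => by rw [hζa, hζa, hzn, smul_sub]) (by rw [hζa, hn, sub_self])
    obtain ⟨a, b, hab, h2⟩ := unipotent_order Q hQ1 hQ ζ k hk
    have h3 : ∀ (c : ℕ) (x : M), ((1 + ζ) ^ c) x = z ^ (n * c) • x := by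
      intro c
      induction c with
      | zero => intro x; simp
      | succ c ih =>
        intro x
        rw [pow_succ, Module.End.mul_apply, ih, Nat.mul_succ, pow_add, mul_smul]
        congr 1
        change x + (z ^ n • x - x) = z ^ n • x
        abel
    refine ⟨n * b - n * a, ?_, fun x => ?_⟩
    · have : n * a < n * b := Nat.mul_lt_mul_of_pos_left hab hn1
      omega
    · have h4 : z ^ (n * a) • x = z ^ (n * b) • x := by
        rw [← h3, ← h3, h2]
      have h5 : z ^ (n * b) = z ^ (n * a) * z ^ (n * b - n * a) := by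
        rw [← pow_add]; congr 1
        have : n * a ≤ n * b := Nat.mul_le_mul_left _ hab.le
        omega
      rw [h5, mul_smul] at h4
      have := congrArg (fun y => (z ^ (n * a))⁻¹ • y) h4
      simpa using this.symm
  refine finite_of_closure {x | ∃ g : G, ∃ s ∈ S, x = g • s} ?_ hSt Q hQ1 hQ
  have h1 : {x | ∃ g : G, ∃ s ∈ S, x = g • s} ⊆
      (fun p : Equiv.Perm M × M => p.1 p.2) ''
        (((⊤ : Subgroup G).map (MulAction.toPermHom G M) : Set (Equiv.Perm M)) ×ˢ S) := by
    rintro x ⟨g, s, hs, rfl⟩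
    exact ⟨(MulAction.toPermHom G M g, s), ⟨⟨g, trivial, rfl⟩, hs⟩, rfl⟩
  exact Set.Finite.subset (((Set.toFinite _).prod hS).image _) h1

end mono

theorem monoStatement : Interface.MonoStatement.{u, w} := by
  intro G _ P hP hc M _ _ hPt hfg x0 hx0 hmono
  exact mono_finite P hP hc hPt hfg x0 hx0 hmono

end Pool.Agent.LibH11.PHall
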