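import Pool.Agent.LibH11.PHall.Noeth

/-!
P. Hall's generic freeness lemma for modules over finitely generated nilpotent groups.
-/

set_option autoImplicit false
set_option linter.unusedSectionVars false
set_option linter.unusedVariables false

namespace Pool.Agent.LibH11.PHall

open Pool.Agent.FGRF

universe u v w

variable {J : Type v} [CommRing J] {G : Type u} [Group G] {M : Type w} [AddCommGroup M]
  [Module J M]

/-- The factor `N / K` behaves like a free module away from the primes dividing `f`. -/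
def HQ (f : J) (K N : Submodule J M) : Prop :=
  ∀ π : J, Prime π → ¬ π ∣ f →
    (∀ x ∈ N, π • x ∈ K → x ∈ K) ∧
    (∀ x ∈ N, (∀ k : ℕ, ∃ y ∈ N, ∃ z ∈ K, x = π ^ k • y + z) → ∃ j : ℕ, f ^ j • x ∈ K)

lemma HQ.mul_right {f : J} {K N : Submodule J M} (h : HQ f K N) (g : J) : HQ (f * g) K N := by
  intro π hπ hd
  obtain ⟨h1, h2⟩ := h π hπ (fun hf => hd (hf.mul_right g))
  refine ⟨h1, fun x hx hk => ?_⟩
  obtain ⟨j, hj⟩ := h2 x hx hk
  refine ⟨j, ?_⟩
  rw [mul_pow, mul_comm, mul_smul]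
  exact Submodule.smul_mem _ _ hj

lemma HQ.mul_left {f : J} {K N : Submodule J M} (h : HQ f K N) (g : J) : HQ (g * f) K N := by
  rw [mul_comm]; exact h.mul_right g

lemma HQ.of_dvd {f g : J} {K N : Submodule J M} (h : HQ f K N) (hd : f ∣ g) : HQ g K N := by
  obtain ⟨c, rfl⟩ := hd
  exact h.mul_right c

lemma HQ.pow_mem {f : J} {L N : Submodule J M} (h : HQ f L N) {π : J} (hπ : Prime π)
    (hd : ¬ π ∣ f) (k : ℕ) : ∀ x ∈ N, π ^ k • x ∈ L → x ∈ L := by
  induction k with
  | zero => intro x _ hx; simpa using hx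
  | succ k ih =>
    intro x hx hk
    apply ih x hx
    apply (h π hπ hd).1 _ (Submodule.smul_mem _ _ hx)
    rwa [← mul_smul, ← pow_succ']

lemma HQ.trans {f : J} {K L N : Submodule J M} (hKL : K ≤ L) (hLN : L ≤ N) (h : HQ f K L)
    (h' : HQ f L N) : HQ f K N := by
  intro π hπ hd
  obtain ⟨h1, h2⟩ := h π hπ hd
  obtain ⟨h1', h2'⟩ := h' π hπ hd
  refine ⟨fun x hx hk => h1 x (h1' x hx (hKL hk)) hk, fun x hx hk => ?_⟩
  obtain ⟨j, hj⟩ := h2' x hx (fun k => by
    obtain ⟨y, hy, z, hz, e⟩ := hk k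
    exact ⟨y, hy, z, hKL hz, e⟩)
  obtain ⟨i, hi⟩ := h2 (f ^ j • x) hj (fun k => by
    obtain ⟨y, hy, z, hz, e⟩ := hk k
    refine ⟨f ^ j • y, ?_, f ^ j • z, Submodule.smul_mem _ _ hz, ?_⟩
    · apply h'.pow_mem hπ hd k _ (Submodule.smul_mem _ _ hy)
      have : π ^ k • f ^ j • y = f ^ j • x - f ^ j • z := by
        rw [e, smul_add, add_sub_cancel_right, smul_comm]
      rw [this]
      exact sub_mem hj (hKL (Submodule.smul_mem _ _ hz))
    · rw [e, smul_add, smul_comm])
  refine ⟨i + j, ?_⟩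
  rw [pow_add, mul_smul]
  exact hi

lemma HQ.refl (f : J) (K : Submodule J M) : HQ f K K := by
  intro π _ _
  exact ⟨fun x hx _ => hx, fun x hx _ => ⟨0, by simpa using hx⟩⟩

lemma HQ.union {f : J} {K N : Submodule J M} (B : ℕ → Submodule J M) (hB : Monotone B)
    (hKB : K ≤ B 0) (h0 : HQ f K (B 0)) (hs : ∀ i, HQ f (B i) (B (i + 1)))
    (hBN : ∀ i, B i ≤ N) (hN : ∀ x ∈ N, ∃ i, x ∈ B i) : HQ f K N := by
  have h1 : ∀ i, HQ f K (B i) := by
    intro i
    induction i with
    | zero => exact h0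
    | succ i ih =>
      exact HQ.trans (hKB.trans (hB (Nat.zero_le _))) (hB (Nat.le_succ _)) ih (hs i)
  have h2 : ∀ i j, i ≤ j → HQ f (B i) (B j) := by
    intro i j hij
    induction j, hij using Nat.le_induction with
    | base => exact HQ.refl _ _
    | succ j hij ih => exact HQ.trans (hB hij) (hB (Nat.le_succ _)) ih (hs j)
  intro π hπ hd
  refine ⟨fun x hx hk => ?_, fun x hx hk => ?_⟩
  · obtain ⟨i, hi⟩ := hN x hx
    exact (h1 i π hπ hd).1 x hi hk
  · obtain ⟨i, hi⟩ := hN x hx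
    refine (h1 i π hπ hd).2 x hi (fun k => ?_)
    obtain ⟨y, hy, z, hz, e⟩ := hk k
    refine ⟨y, ?_, z, hz, e⟩
    obtain ⟨j, hj⟩ := hN y hy
    rcases le_total j i with hji | hij
    · exact hB hji hj
    · apply (h2 i j hij).pow_mem hπ hd k y hj
      have : π ^ k • y = x - z := by rw [e, add_sub_cancel_right]
      rw [this]
      exact sub_mem hi (hB (Nat.zero_le _) (hKB hz))

/-- transport along a linear map -/
lemma HQ.of_map {f : J} {L A : Submodule J M} (φ : M →ₗ[J] M)
    (h : HQ f (A ⊓ L.comap φ) A) : HQ f L (L ⊔ A.map φ) := by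
  intro π hπ hd
  obtain ⟨h1, h2⟩ := h π hπ hd
  refine ⟨fun x hx hk => ?_, fun x hx hk => ?_⟩
  · obtain ⟨l, hl, b, ⟨a, ha, rfl⟩, rfl⟩ := Submodule.mem_sup.1 hx
    refine add_mem hl (h1 a ha ⟨Submodule.smul_mem _ _ ha, ?_⟩).2
    change φ (π • a) ∈ L
    have : φ (π • a) = π • (l + φ a) - π • l := by
      rw [smul_add, add_sub_cancel_left, map_smul]
    rw [this]
    exact sub_mem hk (Submodule.smul_mem _ _ hl)
  · obtain ⟨l, hl, b, ⟨a, ha, rfl⟩, rfl⟩ := Submodule.mem_sup.1 hx
    obtain ⟨j, hj⟩ := h2 a ha (fun k => by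
      obtain ⟨y, hy, z, hz, e⟩ := hk k
      obtain ⟨l', hl', b', ⟨a', ha', rfl⟩, rfl⟩ := Submodule.mem_sup.1 hy
      refine ⟨a', ha', a - π ^ k • a', ⟨sub_mem ha (Submodule.smul_mem _ _ ha'), ?_⟩, by abel⟩
      change φ (a - π ^ k • a') ∈ L
      have : φ (a - π ^ k • a') = π ^ k • l' + z - l := by
        rw [map_sub, map_smul]
        have e2 : φ a = π ^ k • (l' + φ a') + z - l := by rw [← e]; abel
        rw [e2, smul_add]; abel
      rw [this]
      exact sub_mem (add_mem (Submodule.smul_mem _ _ hl') hz) hl)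
    refine ⟨j, ?_⟩
    rw [smul_add]
    refine add_mem (Submodule.smul_mem _ _ hl) ?_
    have := hj.2
    change φ (f ^ j • a) ∈ L at this
    rwa [map_smul] at this

lemma HQ.map_act [DistribMulAction G M] [SMulCommClass G J M] {f : J} {K N : Submodule J M}
    (h : HQ f K N) (g : G) : HQ f (K.map (act J g)) (N.map (act J g)) := by
  intro π hπ hd
  obtain ⟨h1, h2⟩ := h π hπ hd
  refine ⟨fun x hx hk => ?_, fun x hx hk => ?_⟩
  · rw [mem_map_act] at hx hk ⊢
    apply h1 _ hx
    rwa [smul_comm] at hk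
  · rw [mem_map_act] at hx
    obtain ⟨j, hj⟩ := h2 _ hx (fun k => by
      obtain ⟨y, hy, z, hz, e⟩ := hk k
      rw [mem_map_act] at hy hz
      refine ⟨_, hy, _, hz, ?_⟩
      rw [e, smul_add, smul_comm])
    refine ⟨j, ?_⟩
    rw [mem_map_act, smul_comm]
    exact hj

section base

variable [IsDomain J] [IsPrincipalIdealRing J]

lemma HQ.cyclic (K : Submodule J M) (x : M) : ∃ f : J, f ≠ 0 ∧ HQ f K (K ⊔ Submodule.span J {x}) := by
  let I : Ideal J :=
    { carrier := {r | r • x ∈ K}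
      add_mem' := fun {a b} ha hb => by
        change (a + b) • x ∈ K
        rw [add_smul]; exact add_mem ha hb
      zero_mem' := by
        change (0 : J) • x ∈ K
        rw [zero_smul]; exact zero_mem _
      smul_mem' := fun c a ha => by
        change (c * a) • x ∈ K
        rw [mul_smul]; exact Submodule.smul_mem _ _ ha }
  have hI : ∀ r, r ∈ I ↔ r • x ∈ K := fun r => Iff.rfl
  obtain ⟨g, hg⟩ : ∃ g, I = Ideal.span {g} := ⟨_, (Ideal.span_singleton_generator I).symm⟩
  have hmem : ∀ r, r • x ∈ K ↔ g ∣ r := by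
    intro r
    rw [← hI, hg, Ideal.mem_span_singleton]
  have hrep : ∀ y ∈ K ⊔ Submodule.span J {x}, ∃ κ ∈ K, ∃ r : J, y = κ + r • x := by
    intro y hy
    obtain ⟨κ, hκ, b, hb, rfl⟩ := Submodule.mem_sup.1 hy
    obtain ⟨r, rfl⟩ := Submodule.mem_span_singleton.1 hb
    exact ⟨κ, hκ, r, rfl⟩
  have hadd : ∀ (κ : M) (hκ : κ ∈ K) (r : J), κ + r • x ∈ K ↔ g ∣ r := by
    intro κ hκ r
    rw [← hmem]
    constructor
    · intro h
      have := sub_mem h hκ
      simpa using this
    · intro h; exact add_mem hκ h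
  by_cases hg0 : g = 0
  · refine ⟨1, one_ne_zero, ?_⟩
    intro π hπ _
    refine ⟨fun y hy hk => ?_, fun y hy hk => ?_⟩
    · obtain ⟨κ, hκ, r, rfl⟩ := hrep y hy
      rw [smul_add, ← mul_smul, hadd _ (Submodule.smul_mem _ _ hκ), hg0, zero_dvd_iff] at hk
      rw [hadd _ hκ, hg0, zero_dvd_iff]
      exact (mul_eq_zero.1 hk).resolve_left hπ.ne_zero
    · obtain ⟨κ, hκ, r, rfl⟩ := hrep y hy
      refine ⟨0, ?_⟩
      rw [pow_zero, one_smul, hadd _ hκ, hg0, zero_dvd_iff]
      by_contra hr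
      obtain ⟨n, hn⟩ := FiniteMultiplicity.of_not_isUnit hπ.not_isUnit hr
      apply hn
      obtain ⟨y, hy, z, hz, e⟩ := hk (n + 1)
      obtain ⟨κ', hκ', r', rfl⟩ := hrep y hy
      refine ⟨r', ?_⟩
      have h3 : (r - π ^ (n + 1) * r') • x ∈ K := by
        have : (r - π ^ (n + 1) * r') • x = π ^ (n + 1) • κ' + z - κ := by
          rw [sub_smul, mul_smul]
          have e2 : r • x = π ^ (n + 1) • (κ' + r' • x) + z - κ := by rw [← e]; abel
          rw [e2, smul_add]; abel
        rw [this]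
        exact sub_mem (add_mem (Submodule.smul_mem _ _ hκ') hz) hκ
      rw [hmem, hg0, zero_dvd_iff, sub_eq_zero] at h3
      exact h3
  · refine ⟨g, hg0, ?_⟩
    intro π hπ hd
    have hcop : IsCoprime π g := (hπ.irreducible.coprime_iff_not_dvd).2 hd
    refine ⟨fun y hy hk => ?_, fun y hy hk => ?_⟩
    · obtain ⟨κ, hκ, r, rfl⟩ := hrep y hy
      rw [smul_add, ← mul_smul, hadd _ (Submodule.smul_mem _ _ hκ)] at hk
      rw [hadd _ hκ]
      exact hcop.symm.dvd_of_dvd_mul_left hk
    · obtain ⟨κ, hκ, r, rfl⟩ := hrep y hy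
      refine ⟨1, ?_⟩
      rw [pow_one, smul_add, ← mul_smul, hadd _ (Submodule.smul_mem _ _ hκ)]
      exact Dvd.intro r rfl

lemma HQ.finite_span (K : Submodule J M) (S : Set M) (hS : S.Finite) :
    ∃ f : J, f ≠ 0 ∧ HQ f K (K ⊔ Submodule.span J S) := by
  induction S, hS using Set.Finite.induction_on with
  | empty =>
    refine ⟨1, one_ne_zero, ?_⟩
    rw [Submodule.span_empty, sup_bot_eq]
    exact HQ.refl _ _
  | @insert a S _ _ ih =>
    obtain ⟨f, hf, h⟩ := ih
    obtain ⟨g, hg, h'⟩ := HQ.cyclic (K ⊔ Submodule.span J S) a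
    refine ⟨f * g, mul_ne_zero hf hg, ?_⟩
    have e : K ⊔ Submodule.span J (insert a S)
        = (K ⊔ Submodule.span J S) ⊔ Submodule.span J {a} := by
      rw [Submodule.span_insert, sup_comm (Submodule.span J {a}), sup_assoc]
    rw [e]
    exact HQ.trans le_sup_left le_sup_left (h.mul_right g) (h'.mul_left f)

end base

section step

variable [DistribMulAction G M] [SMulCommClass G J M]

/-- the conclusion of Hall's lemma for the subgroup `H` -/
def HallProp (J : Type v) [CommRing J] {G : Type u} [Group G] (M : Type w) [AddCommGroup M]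
    [Module J M] [DistribMulAction G M] (H : Subgroup G) : Prop :=
  ∀ S : Set M, S.Finite → ∀ K : Submodule J M, Inv H K →
    ∃ f : J, f ≠ 0 ∧ HQ f K (K ⊔ hspan J H S)

lemma hall_base [IsDomain J] [IsPrincipalIdealRing J] (P : Subgroup G)
    (hP : ∀ g ∈ P, ∀ x : M, g • x = x) : HallProp J M P := by
  intro S hS K _
  have e : hspan J P S = Submodule.span J S := by
    unfold hspan
    congr 1
    ext x
    constructor
    · rintro ⟨h, hh, s, hs, rfl⟩
      rwa [hP h hh s]
    · intro hx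
      exact ⟨1, P.one_mem, x, hx, (one_smul _ _).symm⟩
  rw [e]
  exact HQ.finite_span K S hS

lemma hall_step [IsDomain J] {H : Subgroup G} (hH : H.Normal) (t : G)
    (hacc : ∀ S : Set M, S.Finite → ACC (J := J) H (hspan J H S)) (hh : HallProp J M H) :
    HallProp J M (H ⊔ Subgroup.zpowers t) := by
  intro S hS K hK
  set M0 := hspan J H S with hM0
  have htm : t ∈ H ⊔ Subgroup.zpowers t := Subgroup.mem_sup_right (Subgroup.mem_zpowers t)
  have hHH : H ≤ H ⊔ Subgroup.zpowers t := le_sup_left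
  have hKt : ∀ x ∈ K, t • x ∈ K := hK t htm
  have hlay : ∀ n, Inv H (lay K M0 t n) := inv_lay hH (hK.mono hHH) (inv_hspan H S) t
  let Kn : ℕ → Submodule J M := fun n => M0 ⊓ (lay K M0 t n).comap (act J (t ^ n))
  have hKle : ∀ n, Kn n ≤ M0 := fun n => inf_le_left
  have hKinv : ∀ n, Inv H (Kn n) := by
    intro n h hh' x hx
    refine ⟨inv_hspan H S h hh' x hx.1, ?_⟩
    have h2 : t ^ n • x ∈ lay K M0 t n := hx.2
    change t ^ n • h • x ∈ lay K M0 t n
    have e : t ^ n • h • x = (t ^ n * h * (t ^ n)⁻¹) • t ^ n • x := by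
      simp [mul_smul]
    rw [e]
    exact hlay n _ (hH.conj_mem h hh' _) _ h2
  have hKmono : Monotone Kn := by
    apply monotone_nat_of_le_succ
    intro n x hx
    refine ⟨hx.1, ?_⟩
    change t ^ (n + 1) • x ∈ lay K M0 t (n + 1)
    rw [pow_succ', mul_smul]
    exact smul_lay hKt n _ hx.2
  obtain ⟨n1, hn1⟩ := hacc S hS Kn hKmono hKle hKinv
  -- a common `f` for all the factors
  have hf : ∀ n, ∃ f : J, f ≠ 0 ∧ HQ f (Kn n) M0 := by
    intro n
    obtain ⟨f, hf0, hf⟩ := hh S hS (Kn n) (hKinv n)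
    refine ⟨f, hf0, ?_⟩
    rwa [sup_eq_right.2 (hKle n)] at hf
  choose F hF0 hF using hf
  set Fp : J := ∏ n ∈ Finset.range (n1 + 1), F n with hFp
  have hFp0 : Fp ≠ 0 := Finset.prod_ne_zero_iff.2 fun n _ => hF0 n
  have hFpQ : ∀ n, HQ Fp (Kn n) M0 := by
    intro n
    rcases le_or_gt n n1 with h | h
    · exact (hF n).of_dvd (Finset.dvd_prod_of_mem F (Finset.mem_range.2 (by omega)))
    · rw [hn1 n h.le]
      exact (hF n1).of_dvd (Finset.dvd_prod_of_mem F (Finset.mem_range.2 (by omega)))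
  have hlayQ : ∀ n, HQ Fp (lay K M0 t n) (lay K M0 t (n + 1)) := fun n => HQ.of_map _ (hFpQ n)
  -- the positive part
  let Np : Submodule J M := ⨆ n, lay K M0 t n
  have hNp : ∀ x, x ∈ Np ↔ ∃ n, x ∈ lay K M0 t n := fun x =>
    Submodule.mem_iSup_of_directed _ (lay_mono K M0 t).directed_le
  have hlayNp : ∀ n, lay K M0 t n ≤ Np := fun n => le_iSup (lay K M0 t) n
  have hNpQ : HQ Fp K Np :=
    HQ.union (lay K M0 t) (lay_mono K M0 t) le_rfl (HQ.refl _ _) hlayQ hlayNp
      (fun x hx => (hNp x).1 hx)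
  have hNpinv : Inv H Np := by
    intro h hh' x hx
    obtain ⟨n, hn⟩ := (hNp x).1 hx
    exact hlayNp n (hlay n h hh' x hn)
  have htNp : ∀ x ∈ Np, t • x ∈ Np := by
    intro x hx
    obtain ⟨n, hn⟩ := (hNp x).1 hx
    exact hlayNp _ (smul_lay hKt n x hn)
  have hM0Np : M0 ≤ Np := by
    refine le_trans ?_ (hlayNp 1)
    intro x hx
    refine (le_sup_right : M0.map (act J (t ^ 0)) ≤ _) ?_
    rw [mem_map_act]
    simpa using hx
  have hNpsplit : Np.map (act J t) ⊔ M0 = Np := by
    apply le_antisymm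
    · refine sup_le ?_ hM0Np
      rintro _ ⟨x, hx, rfl⟩
      exact htNp x hx
    · apply iSup_le
      intro n
      induction n with
      | zero =>
        intro x hx
        refine (le_sup_left : Np.map (act J t) ≤ _) ?_
        rw [mem_map_act]
        exact hlayNp 0 (hK _ (Subgroup.inv_mem _ htm) x hx)
      | succ n ih =>
        refine sup_le ih ?_
        rcases n with _ | n
        · intro x hx
          refine (le_sup_right : M0 ≤ _) ?_
          rw [mem_map_act] at hx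
          simpa using hx
        · intro x hx
          refine (le_sup_left : Np.map (act J t) ≤ _) ?_
          rw [mem_map_act] at hx ⊢
          refine hlayNp (n + 1) (map_pow_le_lay K M0 t n ?_)
          rw [mem_map_act]
          have : (t ^ n)⁻¹ • t⁻¹ • x = (t ^ (n + 1))⁻¹ • x := by
            rw [← mul_smul]; congr 1; group
          rw [this]; exact hx
  obtain ⟨fm, hfm0, hfm⟩ := hh S hS (Np.map (act J t)) (inv_map_act hH t hNpinv)
  rw [← hM0, hNpsplit] at hfm
  -- negative direction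
  let B : ℕ → Submodule J M := fun m => Np.map (act J (t ^ m)⁻¹)
  have hB : ∀ m x, x ∈ B m ↔ t ^ m • x ∈ Np := by
    intro m x
    change x ∈ Np.map (act J (t ^ m)⁻¹) ↔ _
    rw [mem_map_act, inv_inv]
  have hBQ : ∀ m, HQ fm (B m) (B (m + 1)) := by
    intro m
    have h1 := hfm.map_act (t ^ (m + 1))⁻¹
    have e : (Np.map (act J t)).map (act J (t ^ (m + 1))⁻¹) = B m := by
      ext x
      rw [hB, mem_map_act, inv_inv, mem_map_act]
      have : t⁻¹ • t ^ (m + 1) • x = t ^ m • x := by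
        rw [← mul_smul]; congr 1; group
      rw [this]
    rwa [e] at h1
  have hB0 : B 0 = Np := by
    ext x
    rw [hB]; simp
  have hBmono : Monotone B := by
    apply monotone_nat_of_le_succ
    intro m x hx
    rw [hB] at hx ⊢
    rw [pow_succ', mul_smul]
    exact htNp _ hx
  set N := K ⊔ hspan J (H ⊔ Subgroup.zpowers t) S with hN
  have hNinv : Inv (H ⊔ Subgroup.zpowers t) N := inv_sup hK (inv_hspan _ _)
  have hM0N : M0 ≤ N := by
    refine le_trans ?_ le_sup_right
    exact hspan_le (subset_hspan _ _) ((inv_hspan _ _).mono hHH)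
  have hlayN : ∀ n, lay K M0 t n ≤ N := by
    intro n
    induction n with
    | zero => exact le_sup_left
    | succ n ih =>
      refine sup_le ih ?_
      rintro _ ⟨x, hx, rfl⟩
      exact hNinv _ (Subgroup.pow_mem _ htm n) x (hM0N hx)
  have hBN : ∀ m, B m ≤ N := by
    intro m x hx
    rw [hB] at hx
    obtain ⟨n, hn⟩ := (hNp _).1 hx
    have := hNinv _ (Subgroup.inv_mem _ (Subgroup.pow_mem _ htm m)) _ (hlayN n hn)
    simpa using this
  refine ⟨Fp * fm, mul_ne_zero hFp0 hfm0, ?_⟩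
  refine HQ.union B hBmono ?_ ?_ (fun i => (hBQ i).mul_left Fp) hBN ?_
  · rw [hB0]; exact hlayNp 0
  · rw [hB0]; exact hNpQ.mul_right fm
  · intro x hx
    obtain ⟨e, m, hem⟩ := exists_mem_lay (J := J) hH hKt S x hx
    exact ⟨e, (hB e x).2 (hlayNp m hem)⟩

/-- P. Hall's lemma -/
theorem hall [IsDomain J] [IsPrincipalIdealRing J] {P : Subgroup G} (hP : P.Normal)
    (hPt : ∀ g ∈ P, ∀ x : M, g • x = x) {H : Subgroup G} (hc : CCov P H) : HallProp J M H := by
  induction hc with
  | base => exact hall_base P hPt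
  | @step H t hH ht ih =>
    exact hall_step (hH.normal hP) t (fun S hS => acc_of_ccov hP hPt hH S hS) ih

end step

end Pool.Agent.LibH11.PHall
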