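import Pool.Agent.LibH11.PHall.Hall

/-!
Simple modules over finitely generated nilpotent groups are finite.
-/

set_option autoImplicit false
set_option linter.unusedSectionVars false
set_option linter.unusedVariables false
set_option linter.style.haveILetI false

namespace Pool.Agent.LibH11.PHall

open Pool.Agent.FGRF

universe u v w

section primes

variable {J : Type v} [CommRing J] [IsDomain J] [IsPrincipalIdealRing J] {G : Type u} [Group G]
  {S : Type w} [AddCommGroup S] [Module J S] [DistribMulAction G S] [SMulCommClass G J S]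

lemma prime_kills (hinf : ∀ f : J, f ≠ 0 → ∃ π : J, Prime π ∧ ¬ π ∣ f) (P : Subgroup G)
    (hP : P.Normal) (hc : CCov P ⊤) (hPt : ∀ g ∈ P, ∀ x : S, g • x = x) (x0 : S) (hx0 : x0 ≠ 0)
    (hs : ∀ N : AddSubgroup S, (∀ (g : G), ∀ x ∈ N, g • x ∈ N) → N = ⊥ ∨ N = ⊤) :
    ∃ π : J, Prime π ∧ ∀ x : S, π • x = 0 := by
  by_contra hcon
  push Not at hcon
  have hinj : ∀ π : J, Prime π → ∀ x : S, π • x = 0 → x = 0 := by
    intro π hπ
    let A : AddSubgroup S :=
      { carrier := {x | π • x = 0}
        add_mem' := fun {a b} ha hb => by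
          change π • (a + b) = 0
          rw [smul_add, show π • a = 0 from ha, show π • b = 0 from hb, add_zero]
        zero_mem' := smul_zero π
        neg_mem' := fun {a} ha => by
          change π • (-a) = 0
          rw [smul_neg, show π • a = 0 from ha, neg_zero] }
    have hA : ∀ x, x ∈ A ↔ π • x = 0 := fun x => Iff.rfl
    rcases hs A (fun g x hx => by rw [hA] at hx ⊢; rw [← smul_comm, hx, smul_zero]) with h | h
    · intro x hx
      have : x ∈ A := hx
      rw [h] at this
      simpa using this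
    · obtain ⟨x, hx⟩ := hcon π hπ
      exact absurd ((hA x).1 (h ▸ AddSubgroup.mem_top x)) hx
  have hsurj : ∀ π : J, Prime π → ∀ x : S, ∃ y : S, π • y = x := by
    intro π hπ
    let A : AddSubgroup S :=
      { carrier := {x | ∃ y, π • y = x}
        add_mem' := by
          rintro a b ⟨y, rfl⟩ ⟨z, rfl⟩
          exact ⟨y + z, smul_add _ _ _⟩
        zero_mem' := ⟨0, smul_zero π⟩
        neg_mem' := by
          rintro a ⟨y, rfl⟩
          exact ⟨-y, smul_neg _ _⟩ }
    have hA : ∀ x, x ∈ A ↔ ∃ y, π • y = x := fun x => Iff.rfl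
    rcases hs A (fun g x hx => by
      rw [hA] at hx ⊢
      obtain ⟨y, rfl⟩ := hx
      exact ⟨g • y, (smul_comm _ _ _).symm⟩) with h | h
    · obtain ⟨x, hx⟩ := hcon π hπ
      have : π • x ∈ A := ⟨x, rfl⟩
      rw [h] at this
      exact absurd (by simpa using this) hx
    · intro x
      exact (hA x).1 (h ▸ AddSubgroup.mem_top x)
  have hinj' : ∀ r : J, r ≠ 0 → ∀ x : S, r • x = 0 → x = 0 := by
    intro r
    induction r using UniqueFactorizationMonoid.induction_on_prime with
    | h₁ => intro h; exact absurd rfl h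
    | h₂ r hr =>
      intro _ x hx
      obtain ⟨u, rfl⟩ := hr
      have : (((u⁻¹ : Jˣ) : J) * u) • x = 0 := by rw [mul_smul, hx, smul_zero]
      simpa using this
    | h₃ a p ha hp ih =>
      intro _ x hx
      rw [mul_smul] at hx
      exact ih ha x (hinj p hp _ hx)
  obtain ⟨f, hf0, hf⟩ := hall (J := J) hP hPt hc {x0} (Set.finite_singleton _) ⊥ (by
    intro g _ x hx
    rw [Submodule.mem_bot] at hx ⊢
    rw [hx, smul_zero])
  have htop : hspan J (⊤ : Subgroup G) ({x0} : Set S) = ⊤ := by
    have h1 := hs (hspan J (⊤ : Subgroup G) ({x0} : Set S)).toAddSubgroup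
      (fun g x hx => inv_hspan _ _ g (Subgroup.mem_top g) x hx)
    have h2 : x0 ∈ (hspan J (⊤ : Subgroup G) ({x0} : Set S)).toAddSubgroup :=
      subset_hspan _ _ rfl
    rcases h1 with h | h
    · rw [h] at h2
      exact absurd (by simpa using h2) hx0
    · ext x
      have : x ∈ (hspan J (⊤ : Subgroup G) ({x0} : Set S)).toAddSubgroup :=
        h ▸ AddSubgroup.mem_top x
      simpa using this
  rw [htop, sup_top_eq] at hf
  obtain ⟨π, hπ, hd⟩ := hinf f hf0
  have hpow : ∀ k : ℕ, ∃ y : S, π ^ k • y = x0 := by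
    intro k
    induction k with
    | zero => exact ⟨x0, by simp⟩
    | succ k ih =>
      obtain ⟨y, hy⟩ := ih
      obtain ⟨z, hz⟩ := hsurj π hπ y
      refine ⟨z, ?_⟩
      rw [pow_succ, mul_smul, hz, hy]
  obtain ⟨j, hj⟩ := (hf π hπ hd).2 x0 trivial (fun k => by
    obtain ⟨y, hy⟩ := hpow k
    exact ⟨y, trivial, 0, zero_mem _, by rw [hy, add_zero]⟩)
  rw [Submodule.mem_bot] at hj
  exact hx0 (hinj' _ (pow_ne_zero j hf0) _ hj)

end primes

lemma int_primes (f : ℤ) (hf : f ≠ 0) : ∃ π : ℤ, Prime π ∧ ¬ π ∣ f := by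
  obtain ⟨p, hp, hpp⟩ := Nat.exists_infinite_primes (f.natAbs + 1)
  refine ⟨p, Nat.prime_iff_prime_int.1 hpp, fun h => ?_⟩
  have h1 : p ∣ f.natAbs := by
    have := Int.natAbs_dvd_natAbs.2 h
    simpa using this
  have h2 := Nat.le_of_dvd (Int.natAbs_pos.2 hf) h1
  omega

lemma poly_primes {F : Type*} [Field F] (f : Polynomial F) (hf : f ≠ 0) :
    ∃ π : Polynomial F, Prime π ∧ ¬ π ∣ f := by
  have hdeg : (f * Polynomial.X + 1).natDegree = f.natDegree + 1 := by
    rw [← Polynomial.natDegree_mul_X hf]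
    apply Polynomial.natDegree_add_eq_left_of_natDegree_lt
    rw [Polynomial.natDegree_one, Polynomial.natDegree_mul_X hf]
    omega
  have hnu : ¬ IsUnit (f * Polynomial.X + 1) := by
    intro h
    have := Polynomial.natDegree_eq_zero_of_isUnit h
    omega
  have hn0 : f * Polynomial.X + 1 ≠ 0 := by
    intro h
    rw [h, Polynomial.natDegree_zero] at hdeg
    omega
  obtain ⟨π, hπ, hd⟩ := WfDvdMonoid.exists_irreducible_factor hnu hn0
  refine ⟨π, hπ.prime, fun h => ?_⟩
  have h1 : π ∣ 1 := by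
    have := (dvd_add_right (h.mul_right Polynomial.X)).1 hd
    exact this
  exact hπ.not_isUnit (isUnit_of_dvd_one h1)

section central

variable {G : Type u} [Group G] {S : Type w} [AddCommGroup S] [DistribMulAction G S]

/-- a central element of finite order modulo the kernel, for simple modules of prime exponent -/
lemma central_order (q : ℕ) [Fact q.Prime] [Module (ZMod q) S] (P : Subgroup G)
    (hP : P.Normal) (hc : CCov P ⊤) (hPt : ∀ g ∈ P, ∀ x : S, g • x = x) (x0 : S) (hx0 : x0 ≠ 0)
    (hs : ∀ N : AddSubgroup S, (∀ (g : G), ∀ x ∈ N, g • x ∈ N) → N = ⊥ ∨ N = ⊤)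
    (z : G) (hz : ∀ (g : G) (x : S), z • g • x = g • z • x) :
    ∃ n : ℕ, 1 ≤ n ∧ ∀ x : S, z ^ n • x = x := by
  let γ : G → Module.End (ZMod q) S := fun g =>
    (DistribSMul.toAddMonoidHom S g).toZModLinearMap q
  letI : Module (Polynomial (ZMod q)) S :=
    Module.compHom S (Polynomial.aeval (R := ZMod q) (γ z)).toRingHom
  have hsm : ∀ (p : Polynomial (ZMod q)) (x : S), p • x = Polynomial.aeval (γ z) p x :=
    fun p x => rfl
  have hcomm : ∀ g, Commute (γ g) (γ z) := by
    intro g
    ext x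
    change g • z • x = z • g • x
    exact (hz g x).symm
  have hcomm' : ∀ (g : G) (p : Polynomial (ZMod q)), Commute (γ g) (Polynomial.aeval (γ z) p) := by
    intro g p
    induction p using Polynomial.induction_on with
    | C a =>
      rw [Polynomial.aeval_C]
      exact (Algebra.commutes a (γ g)).symm
    | add p r hp hr => rw [map_add]; exact hp.add_right hr
    | monomial n a _ =>
      rw [map_mul, Polynomial.aeval_C, map_pow, Polynomial.aeval_X]
      exact Commute.mul_right (Algebra.commutes a (γ g)).symm ((hcomm g).pow_right _)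
  haveI : SMulCommClass G (Polynomial (ZMod q)) S := ⟨fun g p x => by
    have := congrArg (fun φ : Module.End (ZMod q) S => φ x) (hcomm' g p).eq
    exact this⟩
  obtain ⟨π, hπ, hkill⟩ := prime_kills (J := Polynomial (ZMod q)) poly_primes P hP hc hPt x0 hx0 hs
  -- finiteness of `F_q[X]/(π)`
  have hfin : Finite (AdjoinRoot π) := by
    haveI : Module.Finite (ZMod q) (AdjoinRoot π) :=
      (AdjoinRoot.powerBasis hπ.ne_zero).finite
    exact Module.finite_of_finite (ZMod q)
  obtain ⟨a, b, hab, h⟩ := Finite.exists_ne_map_eq_of_infinite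
    (fun n : ℕ => AdjoinRoot.mk π (Polynomial.X ^ n))
  have key : ∀ a b : ℕ, a < b → AdjoinRoot.mk π (Polynomial.X ^ a) = AdjoinRoot.mk π (Polynomial.X ^ b) →
      ∃ n : ℕ, 1 ≤ n ∧ ∀ x : S, z ^ n • x = x := by
    intro a b hab h
    rw [AdjoinRoot.mk_eq_mk] at h
    obtain ⟨c, hcc⟩ := h
    refine ⟨b - a, by omega, fun x => ?_⟩
    have h0 : (Polynomial.X ^ a - Polynomial.X ^ b : Polynomial (ZMod q)) • x = 0 := by
      rw [hcc, mul_smul, hkill]
    have hpw : ∀ n : ℕ, (Polynomial.X ^ n : Polynomial (ZMod q)) • x = z ^ n • x := by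
      intro n
      rw [hsm, map_pow, Polynomial.aeval_X]
      induction n with
      | zero => simp
      | succ n ih =>
        rw [pow_succ', pow_succ', Module.End.mul_apply, ih, mul_smul]
        rfl
    rw [sub_smul, hpw, hpw, sub_eq_zero] at h0
    have h1 : z ^ b = z ^ a * z ^ (b - a) := by rw [← pow_add]; congr 1; omega
    rw [h1, mul_smul] at h0
    have := congrArg (fun y => (z ^ a)⁻¹ • y) h0
    simpa using this.symm
  rcases lt_or_gt_of_ne hab with hlt | hgt
  · exact key a b hlt h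
  · exact key b a hgt h.symm

end central

section chain

variable {G : Type u} [Group G] {T : Type w} [MulAction G T]

/-- if central elements have finite order on `T`, then the image of the group is finite -/
lemma chain_finite (P : Subgroup G) (hP : P.Normal) (hPt : ∀ g ∈ P, ∀ x : T, g • x = x)
    (hfo : ∀ z : G, (∀ (g : G) (x : T), z • g • x = g • z • x) →
      ∃ n : ℕ, 1 ≤ n ∧ ∀ x : T, z ^ n • x = x) {H : Subgroup G} (hc : CCov P H) :
    Finite (H.map (MulAction.toPermHom G T)) := by
  induction hc with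
  | base =>
    have : P.map (MulAction.toPermHom G T) = ⊥ := by
      rw [eq_bot_iff]
      rintro _ ⟨g, hg, rfl⟩
      rw [Subgroup.mem_bot]
      ext x
      exact hPt g hg x
    rw [this]
    infer_instance
  | @step H t hcH ht ih =>
    have hH : H.Normal := hcH.normal hP
    set ρ := MulAction.toPermHom G T with hρ
    set F := H.map ρ with hF
    have hconj : ∀ n : ℕ, ∀ f ∈ F, ρ t ^ n * f * (ρ t ^ n)⁻¹ ∈ F := by
      rintro n _ ⟨h, hh, rfl⟩
      refine ⟨t ^ n * h * (t ^ n)⁻¹, hH.conj_mem h hh _, ?_⟩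
      simp
    -- a power of `t` centralising `F`
    obtain ⟨a, ha1, ha⟩ : ∃ a : ℕ, 1 ≤ a ∧ ∀ f ∈ F, ρ t ^ a * f = f * ρ t ^ a := by
      let c : ℕ → (F → F) := fun n f => ⟨ρ t ^ n * f * (ρ t ^ n)⁻¹, hconj n f f.2⟩
      obtain ⟨i, j, hij, h⟩ := Finite.exists_ne_map_eq_of_infinite c
      have key : ∀ i j : ℕ, i < j → c i = c j →
          ∃ a : ℕ, 1 ≤ a ∧ ∀ f ∈ F, ρ t ^ a * f = f * ρ t ^ a := by
        intro i j hij h
        refine ⟨j - i, by omega, fun f hf => ?_⟩
        have h1 : ρ t ^ i * f * (ρ t ^ i)⁻¹ = ρ t ^ j * f * (ρ t ^ j)⁻¹ :=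
          congrArg Subtype.val (congrFun h ⟨f, hf⟩)
        have h2 : ρ t ^ j = ρ t ^ i * ρ t ^ (j - i) := by rw [← pow_add]; congr 1; omega
        rw [h2] at h1
        have h3 : f = ρ t ^ (j - i) * f * (ρ t ^ (j - i))⁻¹ := by
          have := congrArg (fun y => (ρ t ^ i)⁻¹ * y * ρ t ^ i) h1
          simpa [mul_assoc] using this
        calc ρ t ^ (j - i) * f = (ρ t ^ (j - i) * f * (ρ t ^ (j - i))⁻¹) * ρ t ^ (j - i) := by group
          _ = f * ρ t ^ (j - i) := by rw [← h3]
      rcases lt_or_gt_of_ne hij with hlt | hgt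
      · exact key i j hlt h
      · exact key j i hgt h.symm
    set m := Nat.card F with hm
    have hm1 : 1 ≤ m := Nat.card_pos
    -- `t^(a m)` is central in the action
    have hcen : ∀ g : G, ρ g * ρ t ^ (a * m) = ρ t ^ (a * m) * ρ g := by
      intro g
      have hmem : g * t ^ a * g⁻¹ * (t ^ a)⁻¹ ∈ H := by
        have h1 : (QuotientGroup.mk (g * t * g⁻¹ * t⁻¹) : G ⧸ H) = 1 :=
          (QuotientGroup.eq_one_iff _).2 (ht g)
        rw [← QuotientGroup.eq_one_iff]
        have h2 : (QuotientGroup.mk g : G ⧸ H) * QuotientGroup.mk t * (QuotientGroup.mk g)⁻¹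
            = QuotientGroup.mk t := by
          have h3 : (QuotientGroup.mk g : G ⧸ H) * QuotientGroup.mk t * (QuotientGroup.mk g)⁻¹
              * (QuotientGroup.mk t)⁻¹ = 1 := h1
          exact mul_inv_eq_one.1 h3
        have h4 : (QuotientGroup.mk g : G ⧸ H) * (QuotientGroup.mk t) ^ a * (QuotientGroup.mk g)⁻¹
            = (QuotientGroup.mk t) ^ a := by
          rw [← conj_pow, h2]
        change (QuotientGroup.mk g : G ⧸ H) * (QuotientGroup.mk t) ^ a * (QuotientGroup.mk g)⁻¹
            * ((QuotientGroup.mk t) ^ a)⁻¹ = 1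
        rw [h4, mul_inv_cancel]
      set c := ρ (g * t ^ a * g⁻¹ * (t ^ a)⁻¹) with hcdef
      have hcF : c ∈ F := ⟨_, hmem, rfl⟩
      have h1 : ρ g * ρ t ^ a * (ρ g)⁻¹ = c * ρ t ^ a := by
        rw [hcdef]; simp [mul_assoc]
      have h2 : ρ g * ρ t ^ (a * m) * (ρ g)⁻¹ = ρ t ^ (a * m) := by
        rw [pow_mul, ← conj_pow, h1, Commute.mul_pow (ha c hcF).symm]
        have : c ^ m = 1 := by
          have := pow_card_eq_one' (x := (⟨c, hcF⟩ : F))
          exact congrArg Subtype.val this
        rw [this, one_mul]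
      calc ρ g * ρ t ^ (a * m) = (ρ g * ρ t ^ (a * m) * (ρ g)⁻¹) * ρ g := by group
        _ = ρ t ^ (a * m) * ρ g := by rw [h2]
    obtain ⟨n, hn1, hn⟩ := hfo (t ^ (a * m)) (fun g x => by
      have := congrArg (fun e : Equiv.Perm T => e x) (hcen g)
      simp only [Equiv.Perm.mul_apply, ← map_pow] at this
      exact this.symm)
    have he : ρ t ^ (a * m * n) = 1 := by
      rw [pow_mul, ← map_pow, ← map_pow]
      ext x
      exact hn x
    have hepos : 0 < a * m * n := by positivity
    -- the image is a finite union of cosets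
    have hsub : ((H ⊔ Subgroup.zpowers t).map ρ : Set (Equiv.Perm T)) ⊆
        (fun p : Equiv.Perm T × ℕ => p.1 * ρ t ^ p.2) ''
          ((F : Set (Equiv.Perm T)) ×ˢ (Finset.range (a * m * n) : Set ℕ)) := by
      rintro _ ⟨g, hg, rfl⟩
      obtain ⟨h, hh, z, hz, rfl⟩ := Subgroup.mem_sup_of_normal_left.1 hg
      obtain ⟨k, rfl⟩ := Subgroup.mem_zpowers_iff.1 hz
      obtain ⟨l, hl⟩ := Int.eq_ofNat_of_zero_le (Int.emod_nonneg k (by omega : ((a * m * n : ℕ) : ℤ) ≠ 0))
      refine ⟨(ρ h, l), ⟨⟨h, hh, rfl⟩, ?_⟩, ?_⟩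
      · have := Int.emod_lt_of_pos k (by exact_mod_cast hepos : (0 : ℤ) < ((a * m * n : ℕ) : ℤ))
        simp only [Finset.coe_range, Set.mem_Iio]
        rw [hl] at this
        exact_mod_cast this
      · change ρ h * ρ t ^ l = ρ (h * t ^ k)
        rw [map_mul, map_zpow, zpow_eq_zpow_emod' k he, hl, zpow_natCast]
    have hfinF : (F : Set (Equiv.Perm T)).Finite := Set.toFinite _
    exact (Set.Finite.subset ((hfinF.prod (Finset.finite_toSet _)).image _) hsub).to_subtype

end chain

/-- an abelian group of bounded exponent generated by a finite set is finite -/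
lemma finite_of_closure {A : Type w} [AddCommGroup A] (S : Set A) (hS : S.Finite)
    (h : AddSubgroup.closure S = ⊤) (m : ℕ) (hm : 1 ≤ m) (ht : ∀ x : A, m • x = 0) : Finite A := by
  haveI : AddGroup.FG A := (AddGroup.fg_iff).2 ⟨S, h, hS⟩
  haveI : Module.Finite ℤ A := Module.Finite.iff_addGroup_fg.mpr inferInstance
  apply Module.finite_of_fg_torsion
  intro x
  refine ⟨⟨(m : ℤ), mem_nonZeroDivisors_of_ne_zero (by omega)⟩, ?_⟩
  change (m : ℤ) • x = 0
  rw [natCast_zsmul]; exact ht x

section simple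

variable {G : Type u} [Group G] {S : Type w} [AddCommGroup S] [DistribMulAction G S]

/-- P. Hall: simple modules over finitely generated nilpotent groups are finite -/
theorem simple_finite (P : Subgroup G)
    (hP : P.Normal) (hc : CCov P ⊤) (hPt : ∀ g ∈ P, ∀ x : S, g • x = x) (x0 : S) (hx0 : x0 ≠ 0)
    (hs : ∀ N : AddSubgroup S, (∀ (g : G), ∀ x ∈ N, g • x ∈ N) → N = ⊥ ∨ N = ⊤) : Finite S := by
  obtain ⟨π, hπ, hkill⟩ := prime_kills (J := ℤ) int_primes P hP hc hPt x0 hx0 hs
  set q := π.natAbs with hq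
  have hqp : q.Prime := Int.prime_iff_natAbs_prime.1 hπ
  haveI : Fact q.Prime := ⟨hqp⟩
  have hqk : ∀ x : S, q • x = 0 := by
    intro x
    rw [← natCast_zsmul, hq, Int.natCast_natAbs]
    rcases abs_choice π with h | h
    · rw [h]; exact hkill x
    · rw [h, neg_smul, hkill, neg_zero]
  letI : Module (ZMod q) S := AddCommGroup.zmodModule hqk
  have hfin : Finite ((⊤ : Subgroup G).map (MulAction.toPermHom G S)) :=
    chain_finite P hP hPt (fun z hz => central_order q P hP hc hPt x0 hx0 hs z hz) hc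
  refine finite_of_closure {x | ∃ g : G, x = g • x0} ?_ ?_ q hqp.one_lt.le hqk
  · have h1 : {x | ∃ g : G, x = g • x0} ⊆
        (fun e : Equiv.Perm S => e x0) ''
          ((⊤ : Subgroup G).map (MulAction.toPermHom G S) : Set (Equiv.Perm S)) := by
      rintro x ⟨g, rfl⟩
      exact ⟨MulAction.toPermHom G S g, ⟨g, trivial, rfl⟩, rfl⟩
    exact Set.Finite.subset ((Set.toFinite _).image _) h1
  · have hinv : ∀ (g : G), ∀ x ∈ AddSubgroup.closure {x | ∃ g : G, x = g • x0},
        g • x ∈ AddSubgroup.closure {x | ∃ g : G, x = g • x0} := by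
      intro g x hx
      induction hx using AddSubgroup.closure_induction with
      | mem x hx =>
        obtain ⟨h, rfl⟩ := hx
        exact AddSubgroup.subset_closure ⟨g * h, (mul_smul _ _ _).symm⟩
      | zero => rw [smul_zero]; exact zero_mem _
      | add x y _ _ hx hy => rw [smul_add]; exact add_mem hx hy
      | neg x _ hx => rw [smul_neg]; exact neg_mem hx
    rcases hs _ hinv with h | h
    · have : x0 ∈ AddSubgroup.closure {x | ∃ g : G, x = g • x0} :=
        AddSubgroup.subset_closure ⟨1, (one_smul _ _).symm⟩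
      rw [h] at this
      exact absurd (by simpa using this) hx0
    · exact h

end simple

end Pool.Agent.LibH11.PHall
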